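import Pool.Agent.H10.GM.Targets2

/-!
# The excluded grid theorem: one more vertex of the bag
-/

set_option autoImplicit false

namespace Pool.Agent.H6.GM

open Pool.Agent.H55.GW Pool.Agent.H10.GM Pool.Agent.H8.VR

theorem pf_NLA : T_NLA := by
  intro V w E hE Bg X v β c hβ hv hvX hc h
  refine NLC.op X {v} c c c h (NLC.pt v c) (Set.disjoint_singleton_right.2 hvX)
    (fun _ p _ => β v ∈ (code w).symm p) (fun _ p _ => β v ∈ (code w).symm p) id id ?_
    (fun a _ => rfl) (fun b _ => rfl)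
  intro a ha b hb i _
  rw [Set.mem_singleton_iff] at hb
  subst hb
  have h1 : (code w).symm (c a) = β '' {x | x ∈ Bg ∧ E a x} := by
    rw [hc a (Or.inl ha), Equiv.symm_apply_apply]
  have h2 : E a b ↔ β b ∈ (code w).symm (c a) := by
    rw [h1]
    constructor
    · intro h
      exact ⟨b, ⟨hv, h⟩, rfl⟩
    · rintro ⟨x, ⟨hx, hax⟩, hxv⟩
      rw [← hβ hx hv hxv]
      exact hax
  exact ⟨h2, ⟨fun h => h2.1 (hE _ _ h), fun h => hE _ _ (h2.2 h)⟩⟩

end Pool.Agent.H6.GM
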